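import Pool.Agent.Work.MP_44611a_h50.Fin

set_option autoImplicit false

open Filter Topology MeasureTheory FirstOrder FirstOrder.Language

namespace Pool.Agent.Results.MP_44611a_co.ModelingLimits

universe u

/-- The two relation symbols of the signature: the binary symbol `<` and the unary symbol `B`. -/
inductive Sym : ℕ → Type
  | lt : Sym 2
  | black : Sym 1

/-- The signature with the relation symbols `<` and `B` and no function symbols (first-order
formulas always contain equality). -/
def sig : FirstOrder.Language.{0, 0} := ⟨fun _ => Empty, Sym⟩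

/-- The structure `(A, <, B)` for the signature. -/
def str {A : Type u} (lt : A → A → Prop) (B : Set A) : sig.Structure A where
  funMap := fun f => f.elim
  RelMap := fun r => match r with
    | Sym.lt => fun v => lt (v 0) (v 1)
    | Sym.black => fun v => v 0 ∈ B

/-- The set of the tuples `(v_1, …, v_p)` of elements of `A` which satisfy the formula
`φ(x_1, …, x_p)` in the structure `(A, <, B)`. -/
def sat {A : Type u} (lt : A → A → Prop) (B : Set A) {p : ℕ} (φ : sig.Formula (Fin p)) :
    Set (Fin p → A) :=
  {v | @Formula.Realize sig A (str lt B) (Fin p) φ v}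

/-- `<` is a strict linear order on `A`, i.e. a transitive tournament. -/
structure StrictLinear {A : Type u} (lt : A → A → Prop) : Prop where
  irrefl : ∀ x, ¬ lt x x
  trans : ∀ x y z, lt x y → lt y z → lt x z
  total : ∀ x y, x ≠ y → lt x y ∨ lt y x

/-- The Stone pairing of the formula `φ(x_1, …, x_p)` and the finite structure `(A, <, B)`: the
number of the satisfying tuples divided by `|A| ^ p`. -/
noncomputable def pairing {A : Type u} (lt : A → A → Prop) (B : Set A) {p : ℕ}
    (φ : sig.Formula (Fin p)) : ℝ :=
  (Nat.card (sat lt B φ) : ℝ) / (Nat.card A : ℝ) ^ p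

/-- A modeling in the signature: a structure `(dom, <, B)` whose domain is a standard Borel space
with a probability measure `ν`, such that for every first-order formula with `p` free variables
the set of the satisfying tuples is a Borel subset of the `p`-th power of the domain. -/
structure Modeling where
  /-- the domain -/
  dom : Type
  /-- the Borel sets of the domain -/
  mble : MeasurableSpace dom
  std : StandardBorelSpace dom
  /-- the relation `<` -/
  lt : dom → dom → Prop
  /-- the set `B` of the black elements -/
  black : Set dom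
  /-- the measure -/
  ν : Measure dom
  prob : IsProbabilityMeasure ν
  borel : ∀ (p : ℕ) (φ : sig.Formula (Fin p)), MeasurableSet (sat lt black φ)

/-- The Stone pairing of the formula `φ(x_1, …, x_p)` and a modeling: the measure, for the `p`-th
power of `ν`, of the set of the satisfying tuples. -/
noncomputable def Modeling.pairing (M : Modeling) {p : ℕ} (φ : sig.Formula (Fin p)) : ℝ :=
  letI := M.mble
  letI := M.prob
  (Measure.pi (fun _ : Fin p => M.ν) (sat M.lt M.black φ)).toReal

/-! ## Auxiliary facts -/

theorem pairing_eq {A : Type u} {C : Type} (e : A ≃ C) (lt : A → A → Prop) (B : Set A)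
    {p : ℕ} (φ : sig.Formula (Fin p)) :
    pairing (fun x y : C => lt (e.symm x) (e.symm y)) (e.symm ⁻¹' B) φ = pairing lt B φ := by
  let _ : sig.Structure A := str lt B
  let _ : sig.Structure C := str (fun x y : C => lt (e.symm x) (e.symm y)) (e.symm ⁻¹' B)
  let E : C ≃[sig] A :=
    { toEquiv := e.symm
      map_fun' := fun f => f.elim
      map_rel' := by
        intro n r v
        cases r with
        | lt => exact Iff.rfl
        | black => exact Iff.rfl }
  have h1 : ∀ v : Fin p → C, φ.Realize v ↔ φ.Realize (fun i => e.symm (v i)) := by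
    intro v
    exact (StrongHomClass.realize_formula E φ (v := v)).symm
  have h2 : Nat.card (sat (fun x y : C => lt (e.symm x) (e.symm y)) (e.symm ⁻¹' B) φ) =
      Nat.card (sat lt B φ) := by
    refine Nat.card_congr ?_
    refine (Equiv.arrowCongr (Equiv.refl (Fin p)) e.symm).subtypeEquiv ?_
    intro v
    exact h1 v
  unfold pairing
  rw [h2, Nat.card_congr e]

theorem nonempty_of_sentence (M : Modeling) (φ : sig.Formula (Fin 0)) (h : M.pairing φ = 1) :
    (sat M.lt M.black φ).Nonempty := by
  by_contra hne
  rw [Set.not_nonempty_iff_eq_empty] at hne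
  unfold Modeling.pairing at h
  rw [hne] at h
  simp at h

theorem pairing_sentence {A : Type u} (lt : A → A → Prop) (B : Set A) (φ : sig.Formula (Fin 0))
    (h : ∀ v, v ∈ sat lt B φ) : pairing lt B φ = 1 := by
  have h1 : sat lt B φ = Set.univ := Set.eq_univ_of_forall h
  unfold pairing
  rw [h1]
  simp

/-- The symbol `<`. -/
def ltS : sig.Relations 2 := Sym.lt

/-- The atomic formula `x_i < x_j` with bound variables. -/
def ltF (i j : Fin 3) : sig.BoundedFormula (Fin 0) 3 :=
  ltS.boundedFormula₂ (Term.var (Sum.inr i)) (Term.var (Sum.inr j))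

theorem realize_ltF {A : Type u} (lt : A → A → Prop) (B : Set A) (i j : Fin 3)
    (v : Fin 0 → A) (xs : Fin 3 → A) :
    @BoundedFormula.Realize sig A (str lt B) (Fin 0) 3 (ltF i j) v xs ↔ lt (xs i) (xs j) := by
  let _ : sig.Structure A := str lt B
  unfold ltF
  rw [BoundedFormula.realize_rel₂]
  exact Iff.rfl

/-- The sentence which says that `<` is a strict linear order. -/
def linF : sig.Formula (Fin 0) :=
  ∀' ∀' ∀' (∼(ltF 0 0) ⊓ ((ltF 0 1 ⊓ ltF 1 2) ⟹ ltF 0 2) ⊓
    ((∼((Term.var (Sum.inr 0) : sig.Term (Fin 0 ⊕ Fin 3)) =' Term.var (Sum.inr 1))) ⟹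
      (ltF 0 1 ⊔ ltF 1 0)))

theorem mem_linF {A : Type u} (lt : A → A → Prop) (B : Set A) (v : Fin 0 → A) :
    v ∈ sat lt B linF ↔ StrictLinear lt := by
  let _ : sig.Structure A := str lt B
  show Formula.Realize linF v ↔ _
  unfold linF Formula.Realize
  simp only [BoundedFormula.realize_all, BoundedFormula.realize_inf, BoundedFormula.realize_sup,
    BoundedFormula.realize_imp, BoundedFormula.realize_not, BoundedFormula.realize_bdEqual,
    Term.realize_var, Sum.elim_inr, realize_ltF]
  constructor
  · intro h
    refine ⟨fun x => (h x x x).1.1, fun x y z hxy hyz => (h x y z).1.2 ⟨hxy, hyz⟩,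
      fun x y hxy => (h x y y).2 hxy⟩
  · intro h x y z
    exact ⟨⟨h.irrefl x, fun hh => h.trans x y z hh.1 hh.2⟩, fun hh => h.total x y hh⟩

theorem str_eta {M : Type u} (S : sig.Structure M) :
    str (fun x y => @Structure.RelMap sig M S 2 Sym.lt ![x, y])
      {x | @Structure.RelMap sig M S 1 Sym.black ![x]} = S := by
  apply FirstOrder.Language.Structure.ext
  · funext n f
    exact f.elim
  · funext n r v
    cases r with
    | lt =>
      show @Structure.RelMap sig M S 2 Sym.lt ![v 0, v 1] = _
      congr 1
      funext i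
      fin_cases i <;> rfl
    | black =>
      show @Structure.RelMap sig M S 1 Sym.black ![v 0] = _
      congr 1
      funext i
      fin_cases i
      rfl

/-! ## The result -/

/-- **Full answer to Q1 (positive).**  Every FO-convergent sequence `(A_n, <, B)` of finite
2-coloured linear orders has a modeling FO-limit, and the relation `<` of the limit is a strict
linear order. -/
theorem result (A : ℕ → Type u) [∀ n, Finite (A n)] [∀ n, Nonempty (A n)]
    (lt : ∀ n, A n → A n → Prop) (hlt : ∀ n, StrictLinear (lt n)) (B : ∀ n, Set (A n))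
    (hconv : ∀ (p : ℕ) (φ : sig.Formula (Fin p)), ∃ l : ℝ,
      Tendsto (fun n => pairing (lt n) (B n) φ) atTop (𝓝 l)) :
    ∃ M : Modeling, StrictLinear M.lt ∧ ∀ (p : ℕ) (φ : sig.Formula (Fin p)),
      Tendsto (fun n => pairing (lt n) (B n) φ) atTop (𝓝 (M.pairing φ)) := by
  let e : ∀ n, A n ≃ Fin (Nat.card (A n)) := fun n => Finite.equivFin (A n)
  have hne : ∀ n, Nonempty (Fin (Nat.card (A n))) := fun n => (e n).nonempty_congr.1 inferInstance
  let S : ∀ n, sig.Structure (Fin (Nat.card (A n))) := fun n =>
    str (fun x y => lt n ((e n).symm x) ((e n).symm y)) ((e n).symm ⁻¹' (B n))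
  have hp : ∀ (p : ℕ) (φ : sig.Formula (Fin p)) (n : ℕ),
      (Nat.card {v : Fin p → Fin (Nat.card (A n)) // @Formula.Realize sig _ (S n) _ φ v} : ℝ) /
        (Nat.card (Fin (Nat.card (A n))) : ℝ) ^ p = pairing (lt n) (B n) φ := by
    intro p φ n
    exact pairing_eq (e n) (lt n) (B n) φ
  obtain ⟨M, mM, sM, stM, μ, pμ, hmeas, hlim⟩ := Pool.Agent.MP44611a.main_theorem sig Sym.lt Sym.black
    (fun _ => inferInstanceAs (IsEmpty Empty))
    (fun r => by cases r; rfl) (fun r => by cases r; rfl)
    (fun n h1 h2 => ⟨fun r => by
      cases r with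
      | lt => exact h2 rfl
      | black => exact h1 rfl⟩)
    (fun n => Fin (Nat.card (A n)))
    (fun n x => (hlt n).irrefl _)
    (fun n x y z => (hlt n).trans _ _ _)
    (fun n x y hxy => (hlt n).total _ _ (fun h => hxy ((e n).symm.injective h)))
    (fun p φ => by
      obtain ⟨l, hl⟩ := hconv p φ
      refine ⟨l, ?_⟩
      refine hl.congr (fun n => (hp p φ n).symm))
  have hset : ∀ (p : ℕ) (φ : sig.Formula (Fin p)),
      sat (fun x y => @Structure.RelMap sig M stM 2 Sym.lt ![x, y])
        {x | @Structure.RelMap sig M stM 1 Sym.black ![x]} φ =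
      {v : Fin p → M | @Formula.Realize sig M stM _ φ v} := by
    intro p φ
    unfold sat
    rw [str_eta]
  let N : Modeling :=
    { dom := M
      mble := mM
      std := sM
      lt := fun x y => @Structure.RelMap sig M stM 2 Sym.lt ![x, y]
      black := {x | @Structure.RelMap sig M stM 1 Sym.black ![x]}
      ν := μ
      prob := pμ
      borel := by
        intro p φ
        rw [hset]
        exact hmeas p φ }
  have hN : ∀ (p : ℕ) (φ : sig.Formula (Fin p)),
      Tendsto (fun n => pairing (lt n) (B n) φ) atTop (𝓝 (N.pairing φ)) := by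
    intro p φ
    have h1 : N.pairing φ = ((MeasureTheory.Measure.pi (fun _ : Fin p => μ))
        {v : Fin p → M | @Formula.Realize sig M stM _ φ v}).toReal := by
      show (Measure.pi (fun _ : Fin p => μ) (sat _ _ φ)).toReal = _
      rw [hset]
    rw [h1]
    exact (hlim p φ).congr (fun n => hp p φ n)
  refine ⟨N, ?_, hN⟩
  have h2 : ∀ n, pairing (lt n) (B n) linF = 1 := by
    intro n
    exact pairing_sentence _ _ _ (fun v => (mem_linF (lt n) (B n) v).2 (hlt n))
  have h3 : N.pairing linF = 1 := by
    have h4 := hN 0 linF
    simp only [h2] at h4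
    exact tendsto_nhds_unique h4 tendsto_const_nhds
  obtain ⟨v, hv⟩ := nonempty_of_sentence N linF h3
  exact (mem_linF _ _ v).1 hv

end Pool.Agent.Results.MP_44611a_co.ModelingLimits
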